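import Pool.Agent.CorA.All
import Pool.Agent.CorA.Final

/-!
# The corona problem for the complement of `K × K`: solutions growing slower than every power of
the logarithm
-/

open Metric Set

set_option autoImplicit false

namespace Pool.Agent.Results.MP_91698f_an.AlmostBounded

/-- The product `K × K` in the plane, where `K` is the middle-thirds Cantor set. -/
def KK : Set ℂ := {z : ℂ | z.re ∈ cantorSet ∧ z.im ∈ cantorSet}

/-- For every `γ > 0` every corona problem on the complement of `K × K` has holomorphic solutions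
`g_j` which grow at most like the power `γ` of the logarithm of the reciprocal of the distance to
`K × K`, with a constant which depends only on `γ`, the number of functions and the lower bound of
the data. -/
theorem result :
    ∀ (n : ℕ) (δ γ : ℝ), 0 < δ → 0 < γ → ∃ C : ℝ, 0 < C ∧ ∀ f : Fin n → ℂ → ℂ,
      (∀ j, DifferentiableOn ℂ (f j) KKᶜ) → (∀ j, ∀ z ∈ KKᶜ, ‖f j z‖ ≤ 1) →
      (∀ z ∈ KKᶜ, ∃ j, δ ≤ ‖f j z‖) →
        ∃ g : Fin n → ℂ → ℂ, (∀ j, DifferentiableOn ℂ (g j) KKᶜ) ∧
          (∀ z ∈ KKᶜ, ∑ j, f j z * g j z = 1) ∧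
          ∀ j, ∀ z ∈ KKᶜ, ‖g j z‖ ≤ C * (1 + max 0 (Real.log (1 / infDist z KK))) ^ γ :=
  fun n δ γ hδ hγ => Pool.Agent.CorA.final Pool.Agent.CorA.a_ALB n δ γ hδ hγ

end Pool.Agent.Results.MP_91698f_an.AlmostBounded
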