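import Pool.Agent.CorE.All
import Pool.Agent.CorE.Final

/-!
# The corona theorem for the complement of `K × K` with solutions in all Hardy classes
-/

open Metric Set

set_option autoImplicit false

namespace Pool.Agent.Results.MP_91698f_an.HardyCorona

/-- The product `K × K` in the plane, where `K` is the middle-thirds Cantor set. -/
def KK : Set ℂ := {z : ℂ | z.re ∈ cantorSet ∧ z.im ∈ cantorSet}

/-- Every corona problem on the complement of `K × K` has holomorphic solutions `g_j` such that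
`exp (c |g_j|)` has a harmonic majorant which is bounded near infinity; in particular all `|g_j| ^ p`,
`p < ∞`, have harmonic majorants. The constants depend only on the number of functions and on the
lower bound of the data. The solutions grow at most logarithmically in the distance to `K × K`. -/
theorem result :
    ∀ (n : ℕ) (δ : ℝ), 0 < δ → ∃ c C : ℝ, 0 < c ∧ 0 < C ∧ ∀ f : Fin n → ℂ → ℂ,
      (∀ j, DifferentiableOn ℂ (f j) KKᶜ) → (∀ j, ∀ z ∈ KKᶜ, ‖f j z‖ ≤ 1) →
      (∀ z ∈ KKᶜ, ∃ j, δ ≤ ‖f j z‖) →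
        ∃ (g : Fin n → ℂ → ℂ) (u : ℂ → ℝ), (∀ j, DifferentiableOn ℂ (g j) KKᶜ) ∧
          (∀ z ∈ KKᶜ, ∑ j, f j z * g j z = 1) ∧
          InnerProductSpace.HarmonicOnNhd u KKᶜ ∧ (∀ z, 2 ≤ ‖z‖ → u z ≤ C) ∧
          ∀ j, ∀ z ∈ KKᶜ, Real.exp (c * ‖g j z‖) ≤ u z ∧
            ‖g j z‖ ≤ C * (1 + max 0 (Real.log (1 / infDist z KK))) :=
  Pool.Agent.CorE.all_of_exp Pool.Agent.CorE.a_CHN Pool.Agent.CorE.a_CON Pool.Agent.CorE.a_EXP

end Pool.Agent.Results.MP_91698f_an.HardyCorona
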