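import Mathlib
import Pool.Agent.Corona91698f.LogCorona

/-!
# Corona problems on the complement of the square Cantor set: solutions with logarithmic growth
-/

open Metric Set

set_option autoImplicit false

namespace Pool.Agent.Results.MP_91698f_an.LogGrowth

/-- The product `K × K` in the plane, where `K` is the middle-thirds Cantor set. -/
def KK : Set ℂ := {z : ℂ | z.re ∈ cantorSet ∧ z.im ∈ cantorSet}

/-- Every corona problem on the complement of `K × K` has holomorphic solutions which grow at most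
logarithmically in the distance to `K × K`, with a constant that depends only on the number of
functions and on the lower bound of the data. -/
theorem result :
    ∀ (n : ℕ) (δ : ℝ), 0 < δ → ∃ C : ℝ, ∀ f : Fin n → ℂ → ℂ,
      (∀ j, DifferentiableOn ℂ (f j) KKᶜ) → (∀ j, ∀ z ∈ KKᶜ, ‖f j z‖ ≤ 1) →
      (∀ z ∈ KKᶜ, ∃ j, δ ≤ ‖f j z‖) →
        ∃ g : Fin n → ℂ → ℂ, (∀ j, DifferentiableOn ℂ (g j) KKᶜ) ∧
          (∀ j, ∀ z ∈ KKᶜ, ‖g j z‖ ≤ C * (1 + max 0 (Real.log (1 / infDist z KK)))) ∧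
          ∀ z ∈ KKᶜ, ∑ j, f j z * g j z = 1 := by
  intro n δ hδ
  obtain ⟨C, hC0, hC⟩ := Pool.Corona91698f.log_corona n δ hδ
  refine ⟨5 * C, fun f h1 h2 h3 => ?_⟩
  obtain ⟨G, g1, g2, g3⟩ := hC f h1 h2 h3
  refine ⟨G, g1, fun j z hz => ?_, g3⟩
  have hne : Pool.Corona91698f.squareCantor.Nonempty :=
    ⟨0, by
      have h0 : (0 : ℝ) ∈ cantorSet := zero_mem_cantorSet
      exact ⟨by simpa using h0, by simpa using h0⟩⟩
  have hKK : KK = Pool.Corona91698f.squareCantor := rfl
  have hd : 0 < infDist z KK := by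
    rw [hKK]
    exact (Pool.Corona91698f.isClosed_squareCantor.notMem_iff_infDist_pos hne).mp hz
  set d := infDist z KK with hddef
  -- the exponent
  obtain ⟨k, hk1, hk2⟩ : ∃ k : ℕ, 151 / 100 < (3 : ℝ) ^ k * d ∧
      (k : ℝ) ≤ 4 + 4 * max 0 (Real.log (1 / d)) := by
    have hl3 : (1 : ℝ) ≤ Real.log 3 := by
      rw [Real.le_log_iff_exp_le (by norm_num)]
      have := Real.exp_one_lt_d9
      linarith
    set L := max 0 (Real.log (1 / d)) with hL
    have hL0 : 0 ≤ L := le_max_left _ _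
    refine ⟨⌊L⌋₊ + 2, ?_, ?_⟩
    · have a1 : L < (⌊L⌋₊ : ℝ) + 1 := Nat.lt_floor_add_one L
      have a2 : Real.log (1 / d) ≤ L := le_max_right _ _
      have a3 : 1 / d ≤ Real.exp L := by
        rw [← Real.log_le_iff_le_exp (by positivity)]
        exact a2
      have a4 : Real.exp L ≤ (3 : ℝ) ^ (⌊L⌋₊ + 1) := by
        rw [← Real.exp_log (show (0 : ℝ) < 3 by norm_num), ← Real.exp_nat_mul]
        apply Real.exp_le_exp.mpr
        push_cast
        nlinarith
      have a5 : 1 ≤ (3 : ℝ) ^ (⌊L⌋₊ + 1) * d := by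
        have := a3.trans a4
        rw [div_le_iff₀ hd] at this
        exact this
      have : (3 : ℝ) ^ (⌊L⌋₊ + 2) * d = 3 * ((3 : ℝ) ^ (⌊L⌋₊ + 1) * d) := by ring
      rw [this]
      linarith
    · push_cast
      have := Nat.floor_le hL0
      linarith
  have h := g2 j z hz k (by rw [← hKK]; exact hk1)
  refine h.trans ?_
  have hL0 : (0 : ℝ) ≤ max 0 (Real.log (1 / d)) := le_max_left _ _
  nlinarith

end Pool.Agent.Results.MP_91698f_an.LogGrowth
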