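import Mathlib
import Pool.Agent.Corona91698f.MainC
import Pool.Agent.Corona91698f.SomePoint

/-!
# The corona problem for the complement of the square Cantor set: data with one singularity suffice
-/

open Metric Set

set_option autoImplicit false

namespace Pool.Agent.Results.MP_91698f_an.OneSingularity

/-- The complement in the plane of the product `K × K`, where `K` is the middle-thirds Cantor
set. -/
def Omega : Set ℂ := {z : ℂ | ¬ (z.re ∈ cantorSet ∧ z.im ∈ cantorSet)}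

/-- `CoronaData f δ`: the functions `f j` are bounded and holomorphic on `Omega`, and at every point
of `Omega` one of them has modulus at least `δ`. -/
def CoronaData {n : ℕ} (f : Fin n → ℂ → ℂ) (δ : ℝ) : Prop :=
  (∀ j, DifferentiableOn ℂ (f j) Omega) ∧ (∀ j, ∃ M : ℝ, ∀ z ∈ Omega, ‖f j z‖ ≤ M) ∧
    ∀ z ∈ Omega, ∃ j, δ ≤ ‖f j z‖

/-- `SolvedOn f g U`: the functions `g j` are bounded and holomorphic on `U`, and
`∑ j, f j * g j = 1` on `U`. -/
def SolvedOn {n : ℕ} (f g : Fin n → ℂ → ℂ) (U : Set ℂ) : Prop :=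
  (∀ j, DifferentiableOn ℂ (g j) U) ∧ (∀ j, ∃ M : ℝ, ∀ z ∈ U, ‖g j z‖ ≤ M) ∧
    ∀ z ∈ U, ∑ j, f j z * g j z = 1

/-- The corona theorem for `Omega`. -/
def Corona : Prop :=
  ∀ (n : ℕ) (f : Fin n → ℂ → ℂ) (δ : ℝ), 0 < δ → CoronaData f δ → ∃ g, SolvedOn f g Omega

/-- The corona theorem for `Omega` with a bound for the solutions that depends only on the number of
functions and on the lower bound `δ` of the data. -/
def UniformCorona : Prop :=
  ∀ (n : ℕ) (δ : ℝ), 0 < δ → ∃ C : ℝ, ∀ f : Fin n → ℂ → ℂ, CoronaData f δ →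
    (∀ j, ∀ z ∈ Omega, ‖f j z‖ ≤ 1) →
      ∃ g, SolvedOn f g Omega ∧ ∀ j, ∀ z ∈ Omega, ‖g j z‖ ≤ C

/-- The uniform corona theorem, only for data that are continuous in the whole plane. -/
def UniformContinuousCorona : Prop :=
  ∀ (n : ℕ) (δ : ℝ), 0 < δ → ∃ C : ℝ, ∀ f : Fin n → ℂ → ℂ, CoronaData f δ →
    (∀ j, ∀ z ∈ Omega, ‖f j z‖ ≤ 1) → (∀ j, Continuous (f j)) →
      ∃ g, SolvedOn f g Omega ∧ ∀ j, ∀ z ∈ Omega, ‖g j z‖ ≤ C

/-- The corona theorem for `Omega` near the point `p`, only for data whose single singularity is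
`p`: every corona problem on `Omega` with data that are continuous in the plane without `p` has a
bounded solution on the intersection of `Omega` with some disc about `p`. -/
def OneSingularityCorona (p : ℂ) : Prop :=
  ∀ (n : ℕ) (f : Fin n → ℂ → ℂ) (δ : ℝ), 0 < δ → CoronaData f δ →
    (∀ j, ContinuousOn (f j) {p}ᶜ) →
      ∃ r : ℝ, 0 < r ∧ ∃ g, SolvedOn f g (Omega ∩ ball p r)

/-- Uniform local solvability near one point, which may depend on the data: for all `n` and `δ`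
there are a radius `r > 0` and a bound `B` such that every corona problem on `Omega` with `n` data
that are bounded by `1` and continuous in the plane has, for some point `p` of `K × K`, a solution
bounded by `B` on the intersection of `Omega` with the disc of radius `r` about `p`. -/
def SomePointCorona : Prop :=
  ∀ (n : ℕ) (δ : ℝ), 0 < δ → ∃ r : ℝ, 0 < r ∧ ∃ B : ℝ, ∀ f : Fin n → ℂ → ℂ, CoronaData f δ →
    (∀ j, ∀ z ∈ Omega, ‖f j z‖ ≤ 1) → (∀ j, Continuous (f j)) →
      ∃ p : ℂ, p.re ∈ cantorSet ∧ p.im ∈ cantorSet ∧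
        ∃ g, SolvedOn f g (Omega ∩ ball p r) ∧ ∀ j, ∀ z ∈ Omega ∩ ball p r, ‖g j z‖ ≤ B

theorem omega_eq : Omega = Pool.Corona91698f.squareCantorᶜ := rfl

theorem uniform_of_local {p : ℂ} (hp : p ∈ Pool.Corona91698f.squareCantor)
    (hloc : OneSingularityCorona p) : UniformContinuousCorona := by
  obtain ⟨K⟩ := Pool.Corona91698f.exists_copies hp
  have hq : Pool.Corona91698f.QuantCoronaC := by
    refine Pool.Corona91698f.quantC_of_local K hp ?_
    intro n f δ hδ hc hf hb hl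
    obtain ⟨r, hr, g, hg1, hg2, hg3⟩ := hloc n f δ hδ ⟨hf, hb, hl⟩ hc
    exact ⟨r, hr, g, hg1, hg2, hg3⟩
  intro n δ hδ
  obtain ⟨C, hC⟩ := hq n δ hδ
  refine ⟨C, fun f hf hb hc => ?_⟩
  obtain ⟨g, hg1, hg2, hg3⟩ := hC f hc hf.1 hb hf.2.2
  exact ⟨g, ⟨hg1, fun j => ⟨C, hg2 j⟩, hg3⟩, hg2⟩

theorem uniform_of_continuous (h : UniformContinuousCorona) : UniformCorona := by
  have hq : Pool.Corona91698f.QuantCoronaC := by
    intro n δ hδ
    obtain ⟨C, hC⟩ := h n δ hδ
    refine ⟨C, fun f hc hf hb hl => ?_⟩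
    obtain ⟨g, hg, hgb⟩ := hC f ⟨hf, fun j => ⟨1, hb j⟩, hl⟩ hb hc
    exact ⟨g, hg.1, hgb, hg.2.2⟩
  have hQ := Pool.Corona91698f.quant_of_quantC hq
  intro n δ hδ
  obtain ⟨C, hC⟩ := hQ n δ hδ
  refine ⟨C, fun f hf hb => ?_⟩
  obtain ⟨g, hg1, hg2, hg3⟩ := hC f hf.1 hb hf.2.2
  exact ⟨g, ⟨hg1, fun j => ⟨C, hg2 j⟩, hg3⟩, hg2⟩

theorem corona_of_uniform (hu : UniformCorona) : Corona := by
  intro n f δ hδ hf
  obtain ⟨hf1, hf2, hf3⟩ := hf
  choose M hM using hf2
  set B : ℝ := 1 + ∑ j, |M j| with hB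
  have hB1 : 1 ≤ B := by
    have : 0 ≤ ∑ j, |M j| := Finset.sum_nonneg fun j _ => abs_nonneg _
    linarith
  have hB0 : 0 < B := by linarith
  have hMB : ∀ j, M j ≤ B := by
    intro j
    have h1 := Finset.single_le_sum (f := fun j => |M j|) (fun i _ => abs_nonneg _)
      (Finset.mem_univ j)
    have h2 := le_abs_self (M j)
    linarith
  have hBc : (B : ℂ) ≠ 0 := by exact_mod_cast hB0.ne'
  have hnorm : ∀ j z, ‖f j z / (B : ℂ)‖ = ‖f j z‖ / B := by
    intro j z
    rw [norm_div, Complex.norm_real, Real.norm_eq_abs, abs_of_pos hB0]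
  obtain ⟨C, hC⟩ := hu n (δ / B) (by positivity)
  have hb1 : ∀ j, ∀ z ∈ Omega, ‖f j z / (B : ℂ)‖ ≤ 1 := by
    intro j z hz
    rw [hnorm, div_le_one hB0]
    exact (hM j z hz).trans (hMB j)
  obtain ⟨g, ⟨hg1, hg2, hg3⟩, -⟩ := hC (fun j z => f j z / (B : ℂ))
    ⟨fun j => (hf1 j).div_const _, fun j => ⟨1, hb1 j⟩, fun z hz => by
      obtain ⟨j, hj⟩ := hf3 z hz
      refine ⟨j, ?_⟩
      rw [hnorm]
      gcongr⟩ hb1
  refine ⟨fun j z => g j z / (B : ℂ), fun j => (hg1 j).div_const _, ?_, ?_⟩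
  · intro j
    obtain ⟨N, hN⟩ := hg2 j
    refine ⟨N / B, fun z hz => ?_⟩
    rw [norm_div, Complex.norm_real, Real.norm_eq_abs, abs_of_pos hB0]
    have := hN z hz
    gcongr
  · intro z hz
    rw [← hg3 z hz]
    refine Finset.sum_congr rfl fun j _ => ?_
    ring

theorem local_of_corona (hc : Corona) (p : ℂ) : OneSingularityCorona p := by
  intro n f δ hδ hf _
  obtain ⟨g, hg1, hg2, hg3⟩ := hc n f δ hδ hf
  refine ⟨1, one_pos, g, fun j => (hg1 j).mono inter_subset_left, fun j => ?_, ?_⟩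
  · obtain ⟨N, hN⟩ := hg2 j
    exact ⟨N, fun z hz => hN z hz.1⟩
  · intro z hz
    exact hg3 z hz.1

theorem uniform_of_somePoint (h : SomePointCorona) : UniformContinuousCorona := by
  have hq : Pool.Corona91698f.QuantCoronaC := by
    refine Pool.Corona91698f.quantC_of_somePoint ?_
    intro n δ hδ
    obtain ⟨r, hr, B, hB⟩ := h n δ hδ
    refine ⟨r, hr, B, fun f hc hf hb hl => ?_⟩
    obtain ⟨p, hp1, hp2, g, hg, hgb⟩ := hB f ⟨hf, fun j => ⟨1, hb j⟩, hl⟩ hb hc
    exact ⟨p, ⟨hp1, hp2⟩, g, hg.1, hgb, hg.2.2⟩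
  intro n δ hδ
  obtain ⟨C, hC⟩ := hq n δ hδ
  refine ⟨C, fun f hf hb hc => ?_⟩
  obtain ⟨g, hg1, hg2, hg3⟩ := hC f hc hf.1 hb hf.2.2
  exact ⟨g, ⟨hg1, fun j => ⟨C, hg2 j⟩, hg3⟩, hg2⟩

theorem somePoint_of_uniform (h : UniformContinuousCorona) : SomePointCorona := by
  intro n δ hδ
  obtain ⟨C, hC⟩ := h n δ hδ
  refine ⟨1, one_pos, C, fun f hf hb hc => ?_⟩
  obtain ⟨g, ⟨hg1, hg2, hg3⟩, hg4⟩ := hC f hf hb hc
  have h0 : (0 : ℂ) ∈ Pool.Corona91698f.squareCantor := Pool.Corona91698f.zero_mem_squareCantor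
  refine ⟨0, h0.1, h0.2, g, ⟨fun j => (hg1 j).mono inter_subset_left, fun j => ?_, fun z hz =>
    hg3 z hz.1⟩, fun j z hz => hg4 j z hz.1⟩
  exact ⟨C, fun z hz => hg4 j z hz.1⟩

/-- The corona theorem for the complement of `K × K` is equivalent to its uniform version, to its
uniform version for data that are continuous in the plane, to its uniform local version near one
point that may depend on the (continuous) data, and, for every single point `p` of `K × K`, to its
local version at `p` for data that are continuous in the plane without `p`. -/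
theorem result :
    (Corona ↔ UniformCorona) ∧ (Corona ↔ UniformContinuousCorona) ∧ (Corona ↔ SomePointCorona) ∧
      ∀ p : ℂ, p.re ∈ cantorSet → p.im ∈ cantorSet → (Corona ↔ OneSingularityCorona p) := by
  have h0 : (0 : ℂ) ∈ Pool.Corona91698f.squareCantor := Pool.Corona91698f.zero_mem_squareCantor
  have hCU : Corona → UniformContinuousCorona := fun h => uniform_of_local h0 (local_of_corona h 0)
  have hUC : UniformContinuousCorona → Corona := fun h =>
    corona_of_uniform (uniform_of_continuous h)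
  refine ⟨⟨fun h => uniform_of_continuous (hCU h), corona_of_uniform⟩, ⟨hCU, hUC⟩,
    ⟨fun h => somePoint_of_uniform (hCU h), fun h => hUC (uniform_of_somePoint h)⟩,
    fun p hp1 hp2 => ?_⟩
  exact ⟨fun h => local_of_corona h p, fun h => hUC (uniform_of_local ⟨hp1, hp2⟩ h)⟩

end Pool.Agent.Results.MP_91698f_an.OneSingularity
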