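import Mathlib
import Pool.Agent.Corona91698f.PorCorona
import Pool.Agent.Corona91698f.CousinPorous

/-!
# Bounded corona solutions on the complement of the square Cantor set from a porous family of
local solutions
-/

open Metric Set

set_option autoImplicit false

namespace Pool.Agent.Results.MP_91698f_an.PorousLocalization

/-- The product `K × K` in the plane, where `K` is the middle-thirds Cantor set. -/
def KK : Set ℂ := {z : ℂ | z.re ∈ cantorSet ∧ z.im ∈ cantorSet}

/-- `g` is a holomorphic solution, bounded by `B`, of the corona problem `f` on the part of the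
complement of `K × K` in `U`. -/
def Solves {n : ℕ} (f g : Fin n → ℂ → ℂ) (B : ℝ) (U : Set ℂ) : Prop :=
  (∀ j, DifferentiableOn ℂ (g j) (U ∩ KKᶜ)) ∧ (∀ j, ∀ z ∈ U ∩ KKᶜ, ‖g j z‖ ≤ B) ∧
    ∀ z ∈ U ∩ KKᶜ, ∑ j, f j z * g j z = 1

/-- If every disc centred at a point of `K × K` contains a point `q` of `K × K` such that, on a
comparably large disc about `q`, the data are nearly constant or the corona problem has a solution
bounded by `B`, then the corona problem has a bounded solution on the whole complement of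
`K × K`, with a bound which depends only on `n`, `δ`, `c` and `B`. -/
theorem result :
    ∀ (n : ℕ) (δ c B : ℝ), 0 < δ → 0 < c → ∃ C : ℝ, ∀ f : Fin n → ℂ → ℂ,
      (∀ j, DifferentiableOn ℂ (f j) KKᶜ) → (∀ j, ∀ z ∈ KKᶜ, ‖f j z‖ ≤ 1) →
      (∀ z ∈ KKᶜ, ∃ j, δ ≤ ‖f j z‖) →
      (∀ p ∈ KK, ∀ r : ℝ, 0 < r → r ≤ 1 → ∃ q ∈ KK, dist q p ≤ r ∧
        ((∀ j, ∀ z ∈ ball q (c * r) ∩ KKᶜ, ∀ z' ∈ ball q (c * r) ∩ KKᶜ,
          2 * n * ‖f j z - f j z'‖ ≤ δ ^ 2) ∨ ∃ g, Solves f g B (ball q (c * r)))) →
        ∃ g, Solves f g C univ := by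
  intro n δ c B hδ hc
  obtain ⟨J0, hJ0⟩ := pow_unbounded_of_one_lt (302 / 100 / c) (show (1 : ℝ) < 3 by norm_num)
  rw [div_lt_iff₀ hc] at hJ0
  obtain ⟨C, -, hC⟩ := Pool.Corona91698f.porous_corona n δ hδ J0
    (Pool.Corona91698f.cousin_por J0) (max B (2 / δ ^ 2))
  refine ⟨C, fun f h1 h2 h3 h4 => ?_⟩
  have hKK : KK = Pool.Corona91698f.squareCantor := rfl
  rw [hKK] at h1 h2 h3
  obtain ⟨g, g1, g2, g3⟩ := hC f h1 h2 h3 (fun v => by
    -- the point and the radius belonging to the square of `v`
    have hp : Pool.Corona91698f.Phi v 0 ∈ KK := by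
      have h0 : ∀ v : List Pool.Corona91698f.D,
          Pool.Corona91698f.Phi v 0 ∈ Pool.Corona91698f.squareCantor := by
        intro v
        induction v with
        | nil => exact Pool.Corona91698f.zero_mem_squareCantor
        | cons d v ih => exact Pool.Corona91698f.phi_mem ih
      exact h0 v
    have h3v : (0 : ℝ) < 3 ^ v.length := by positivity
    have h3v1 : (1 : ℝ) ≤ 3 ^ v.length := one_le_pow₀ (by norm_num)
    obtain ⟨q, hq, hqp, hloc⟩ := h4 _ hp (1 / 2 / 3 ^ v.length) (by positivity) (by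
      rw [div_le_one h3v]
      linarith)
    rw [hKK] at hq
    have hPq : Pool.Corona91698f.Psi v q ∈ Pool.Corona91698f.squareCantor := by
      refine Pool.Corona91698f.Psi_mem_of_near hq ?_
      have e1 : dist (Pool.Corona91698f.Psi v q) 0 ≤ 1 / 2 := by
        have e2 := Pool.Corona91698f.dist_Psi v q (Pool.Corona91698f.Phi v 0)
        rw [Pool.Corona91698f.Psi_Phi] at e2
        rw [e2]
        calc 3 ^ v.length * dist q (Pool.Corona91698f.Phi v 0)
            ≤ 3 ^ v.length * (1 / 2 / 3 ^ v.length) := by gcongr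
          _ = 1 / 2 := by field_simp
      have e3 := dist_triangle (Pool.Corona91698f.Psi v q) 0 Pool.Corona91698f.ctr
      have e4 := Pool.Corona91698f.squareCantor_dist' Pool.Corona91698f.zero_mem_squareCantor
      linarith
    have hword : ∀ (k : ℕ) (y : ℂ), y ∈ Pool.Corona91698f.squareCantor →
        ∃ x : List Pool.Corona91698f.D, x.length = k ∧
          Pool.Corona91698f.Psi x y ∈ Pool.Corona91698f.squareCantor := by
      intro k
      induction k with
      | zero => exact fun y hy => ⟨[], rfl, hy⟩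
      | succ k ih =>
        intro y hy
        obtain ⟨d, hd⟩ := Pool.Corona91698f.exists_psi_mem hy
        obtain ⟨x, hx, hx'⟩ := ih _ hd
        exact ⟨d :: x, by simp [hx], hx'⟩
    obtain ⟨x, hx, hxE⟩ := hword J0 _ hPq
    refine ⟨x, hx, ?_⟩
    have hsub : Pool.Corona91698f.Dv (v ++ x) ⊆ ball q (c * (1 / 2 / 3 ^ v.length)) := by
      intro z hz
      have hz' : dist (Pool.Corona91698f.Psi (v ++ x) z) Pool.Corona91698f.ctr < 80 / 100 := hz
      rw [← Pool.Corona91698f.Psi_append] at hxE
      have e1 := Pool.Corona91698f.squareCantor_dist' hxE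
      have e2 := dist_triangle_right (Pool.Corona91698f.Psi (v ++ x) z)
        (Pool.Corona91698f.Psi (v ++ x) q) Pool.Corona91698f.ctr
      rw [Pool.Corona91698f.dist_Psi, List.length_append, hx, pow_add] at e2
      rw [mem_ball]
      have e3 : (3 : ℝ) ^ v.length * 3 ^ J0 * dist z q < 151 / 100 := by linarith
      have e4 : 3 ^ v.length * (302 / 100 * dist z q) ≤ 3 ^ v.length * (3 ^ J0 * c * dist z q) := by
        have := dist_nonneg (x := z) (y := q)
        gcongr
      have e5 : 3 ^ v.length * (3 ^ J0 * c * dist z q)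
          = c * ((3 : ℝ) ^ v.length * 3 ^ J0 * dist z q) := by ring
      have e6 : c * ((3 : ℝ) ^ v.length * 3 ^ J0 * dist z q) < c * (151 / 100) := by gcongr
      have e7 : c * (1 / 2 / 3 ^ v.length) = c / 2 / 3 ^ v.length := by ring
      rw [e7, lt_div_iff₀ h3v]
      nlinarith
    set V : Set ℂ := Pool.Corona91698f.Dv (v ++ x) ∩ Pool.Corona91698f.squareCantorᶜ with hV
    have hVsub : V ⊆ ball q (c * (1 / 2 / 3 ^ v.length)) ∩ Pool.Corona91698f.squareCantorᶜ :=
      fun z hz => ⟨hsub hz.1, hz.2⟩
    rcases hloc with hosc | ⟨g, ga, gb, gc⟩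
    · rcases V.eq_empty_or_nonempty with hVe | hVn
      · refine ⟨fun _ _ => 0, ?_, ?_, ?_⟩
        · intro j
          exact differentiableOn_const _
        · intro j z hz
          rw [← hV, hVe] at hz
          exact absurd hz (notMem_empty z)
        · intro z hz
          rw [← hV, hVe] at hz
          exact absurd hz (notMem_empty z)
      · have hn : 0 < n := by
          obtain ⟨z, hz⟩ := hVn
          obtain ⟨j, -⟩ := h3 z hz.2
          exact j.pos
        have hn' : (0 : ℝ) < n := by exact_mod_cast hn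
        obtain ⟨g, ga, gb, gc⟩ := Pool.Corona91698f.locSol_of_osc (n := n)
          (ε := δ ^ 2 / (2 * n)) hδ (le_of_eq (by field_simp)) (by positivity) f V hVn
          (fun j => (h1 j).mono fun z hz => hz.2) (fun j z hz => h2 j z hz.2)
          (fun z hz => h3 z hz.2) (fun j z hz z' hz' => by
            rw [le_div_iff₀ (by positivity)]
            have := hosc j z (hVsub hz) z' (hVsub hz')
            linarith)
        exact ⟨g, ga, fun j z hz => (gb j z hz).trans (le_max_right _ _), gc⟩
    · exact ⟨g, fun j => (ga j).mono hVsub, fun j z hz => (gb j z (hVsub hz)).trans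
        (le_max_left _ _), fun z hz => gc z (hVsub hz)⟩)
  refine ⟨g, ?_, ?_, ?_⟩
  · intro j
    rw [univ_inter]
    exact g1 j
  · intro j z hz
    rw [univ_inter] at hz
    exact g2 j z hz
  · intro z hz
    rw [univ_inter] at hz
    exact g3 z hz

end Pool.Agent.Results.MP_91698f_an.PorousLocalization
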